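import Pool.Agent.H311Z.VTC.Main

namespace Pool.Agent.Results.MP_632592_lc.NotExpIP

open Pool.Agent.H311Z.VTC

universe u

/-- There is a model of `VTC⁰` with uncountably many strings whose ring of binary integers is not
isomorphic to an exponential integer part of any real-closed exponential field. -/
theorem result : ∃ M : Struc, M.IsVTC0 ∧ Uncountable M.Str ∧ ¬ IsExpIP.{u} M := by
  obtain ⟨M, h1, h2, h3⟩ := exists_model
  exact ⟨M, h1, not_countable_iff.1 h3, not_isExpIP h1.basic h2 h3⟩

end Pool.Agent.Results.MP_632592_lc.NotExpIP
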